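import Mathlib
import Pool.Agent.N489.SD.Defs
import Pool.Agent.N489.SD.Main

set_option autoImplicit false

/-!
# Products of strong d-spaces need not be strong d-spaces
-/

namespace Pool.Agent.Results.MP_e2e219_gt.SquareNotStrongD

open Pool.Agent.N489.SD

/-- **Negative answer to Q1.** There is a strong d-space `X` such that the square `X × X` and all
powers `X ^ I`, for index sets `I` with more than one element, are not strong d-spaces. -/
theorem result : ∃ (X : Type) (_ : TopologicalSpace X), StrongDSpace X ∧
    ¬ StrongDSpace (X × X) ∧ ∀ I : Type, Nontrivial I → ¬ StrongDSpace (I → X) := by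
  obtain ⟨X, t, h1, h2⟩ := exists_square
  exact ⟨X, t, h1, h2, fun I _ => not_power h2 I⟩

end Pool.Agent.Results.MP_e2e219_gt.SquareNotStrongD
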